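import Pool.Agent.TH6.FB.Mod

set_option autoImplicit false
set_option linter.style.haveILetI false
set_option linter.unusedSectionVars false
set_option linter.unusedVariables false

/-! Crossed products, and modules over crossed products with a presentation which is controlled
over the group by a matrix of small norm. -/

namespace TH6.FB

open Matrix TH57.Thr TH6.LF TH6.PF

/-- A crossed product of the group `G`: a ring `S` which is graded by `G` and has units of all
degrees. The grading is given by the ring homomorphism `δ x = ∑ x_g g` to the group ring of `G`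
with coefficients in `S`, where `x_g` is the component of `x` of degree `g`. -/
structure CrossedProduct (S : Type) [Ring S] (G : Type) [Group G] where
  /-- `δ x = ∑ x_g g`, where `x_g` is the component of `x` of degree `g` -/
  δ : S →+* MonoidAlgebra S G
  /-- every element is the sum of its components -/
  sum_comp : ∀ x, (δ x).coeff.sum (fun _ a => a) = x
  /-- the component of degree `g` is homogeneous of degree `g` -/
  comp : ∀ x g, δ ((δ x).coeff g) = MonoidAlgebra.single g ((δ x).coeff g)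
  /-- there are units of all degrees -/
  unit : ∀ g : G, ∃ u : Sˣ, δ u = MonoidAlgebra.single g (u : S)

namespace CrossedProduct

variable {S : Type} [Ring S] {G : Type} [Group G] (X : CrossedProduct S G)

/-- The subring of the elements whose components have degrees in the subgroup `V`. -/
def sub (V : Subgroup G) : Subring S where
  carrier := {x | ∀ g, (X.δ x).coeff g ≠ 0 → g ∈ V}
  mul_mem' := by
    intro x y hx hy g hg
    rw [map_mul] at hg
    have h1 : X.δ x * X.δ y = trc V (X.δ x * X.δ y) := by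
      rw [trc_mul V _ _ hx, trc_of V _ hy]
    rw [h1] at hg
    exact trc_supp _ _ _ hg
  one_mem' := by
    intro g hg
    rw [map_one] at hg
    exact one_supp _ g hg
  add_mem' := by
    intro x y hx hy g hg
    rw [map_add, MonoidAlgebra.coeff_add, Finsupp.add_apply] at hg
    by_cases h1 : (X.δ x).coeff g = 0
    · rw [h1, zero_add] at hg; exact hy g hg
    · exact hx g h1
  zero_mem' := by
    intro g hg
    rw [map_zero] at hg
    exact absurd rfl hg
  neg_mem' := by
    intro x hx g hg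
    rw [map_neg, MonoidAlgebra.coeff_neg, Finsupp.neg_apply, ne_eq, neg_eq_zero] at hg
    exact hx g hg

theorem mem_sub (V : Subgroup G) (x : S) :
    x ∈ X.sub V ↔ ∀ g, (X.δ x).coeff g ≠ 0 → g ∈ V := Iff.rfl

theorem inj : Function.Injective X.δ := by
  intro x y h
  rw [← X.sum_comp x, ← X.sum_comp y, h]

theorem δ_sum (y : MonoidAlgebra S G)
    (hy : ∀ g, X.δ (y.coeff g) = MonoidAlgebra.single g (y.coeff g)) :
    X.δ (y.coeff.sum (fun _ a => a)) = y := by
  classical
  unfold Finsupp.sum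
  rw [map_sum, Finset.sum_congr rfl fun g _ => hy g]
  ext g
  rw [MonoidAlgebra.coeff_sum, Finsupp.finsetSum_apply]
  simp only [MonoidAlgebra.coeff_single, Finsupp.single_apply, Finset.sum_ite_eq']
  split_ifs with h
  · rfl
  · exact (Finsupp.notMem_support_iff.1 h).symm

/-- the part of an element with degrees in `V` -/
noncomputable def tr (V : Subgroup G) (x : S) : S :=
  (trc V (X.δ x)).coeff.sum (fun _ a => a)

theorem δ_tr (V : Subgroup G) (x : S) : X.δ (X.tr V x) = trc V (X.δ x) := by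
  classical
  apply X.δ_sum
  intro g
  rw [TH6.CR.coeff_trc]
  split_ifs
  · exact X.comp x g
  · rw [map_zero, MonoidAlgebra.single_zero]

theorem tr_mem (V : Subgroup G) (x : S) : X.tr V x ∈ X.sub V := by
  intro g hg
  rw [δ_tr] at hg
  exact trc_supp _ _ _ hg

theorem tr_of (V : Subgroup G) (x : S) (h : x ∈ X.sub V) : X.tr V x = x := by
  apply X.inj
  rw [δ_tr, trc_of V _ h]

theorem tr_mul (V : Subgroup G) (x y : S) (h : x ∈ X.sub V) :
    X.tr V (x * y) = x * X.tr V y := by
  apply X.inj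
  rw [δ_tr, map_mul, map_mul, δ_tr, trc_mul V _ _ h]

theorem tr_mul' (V : Subgroup G) (x y : S) (h : y ∈ X.sub V) :
    X.tr V (x * y) = X.tr V x * y := by
  apply X.inj
  rw [δ_tr, map_mul, map_mul, δ_tr, TH6.CX.trc_mul' V _ _ h]

theorem tr_add (V : Subgroup G) (x y : S) : X.tr V (x + y) = X.tr V x + X.tr V y := by
  apply X.inj
  rw [δ_tr, map_add, map_add, δ_tr, δ_tr, trc_add]

theorem tr_zero (V : Subgroup G) : X.tr V 0 = 0 := by
  apply X.inj
  rw [δ_tr, map_zero, trc_zero]

theorem tr_sum {α : Type} (V : Subgroup G) (s : Finset α) (f : α → S) :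
    X.tr V (∑ i ∈ s, f i) = ∑ i ∈ s, X.tr V (f i) := by
  classical
  induction s using Finset.induction_on with
  | empty => simp [tr_zero]
  | insert a s ha ih => rw [Finset.sum_insert ha, Finset.sum_insert ha, tr_add, ih]

/-- a unit of degree `g` -/
noncomputable def un (g : G) : Sˣ := (X.unit g).choose

theorem δ_un (g : G) : X.δ (X.un g) = MonoidAlgebra.single g ((X.un g : Sˣ) : S) :=
  (X.unit g).choose_spec

theorem δ_un_inv (g : G) :
    X.δ ((X.un g)⁻¹ : Sˣ) = MonoidAlgebra.single g⁻¹ (((X.un g)⁻¹ : Sˣ) : S) := by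
  have h1 : X.δ ((X.un g)⁻¹ : Sˣ) * X.δ (X.un g) = 1 := by
    rw [← map_mul, Units.inv_mul, map_one]
  have h2 : X.δ (X.un g) * MonoidAlgebra.single g⁻¹ (((X.un g)⁻¹ : Sˣ) : S) = 1 := by
    rw [δ_un, MonoidAlgebra.single_mul_single, mul_inv_cancel, Units.mul_inv]; rfl
  calc X.δ ((X.un g)⁻¹ : Sˣ)
      = X.δ ((X.un g)⁻¹ : Sˣ) * (X.δ (X.un g)
        * MonoidAlgebra.single g⁻¹ (((X.un g)⁻¹ : Sˣ) : S)) := by rw [h2, mul_one]
    _ = _ := by rw [← mul_assoc, h1, one_mul]

theorem supp_conj (g h : G) (x : S) (k : G)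
    (hk : (X.δ ((X.un g : S) * x * ((X.un h)⁻¹ : Sˣ))).coeff k ≠ 0) :
    (X.δ x).coeff (g⁻¹ * k * h) ≠ 0 := by
  rw [map_mul, map_mul, δ_un, δ_un_inv, MonoidAlgebra.coeff_mul_single_apply,
    MonoidAlgebra.coeff_single_mul_apply, inv_inv] at hk
  have h1 := right_ne_zero_of_mul (left_ne_zero_of_mul hk)
  rwa [← mul_assoc] at h1

end CrossedProduct

section blocks

variable {S : Type} [Ring S] {ι κ β : Type} [Fintype ι] [Fintype κ] [DecidableEq ι]
  [DecidableEq κ] [DecidableEq β] (A : Matrix ι κ S) (r : ι → β) (s : κ → β)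
  (a : ι → Sˣ) (c : κ → Sˣ)

/-- the rescaled blocks -/
def bl (b : β) : Matrix {i // r i = b} {j // s j = b} S := fun i j =>
  (a i.1 : S) * A i.1 j.1 * ((c j.1)⁻¹ : Sˣ)

theorem coker_blocks (h : ∀ i j, r i ≠ s j → A i j = 0) :
    Nonempty (((κ → S) ⧸ LinearMap.range A.vecMulLinear)
      ≃ₗ[S] (∀ b : β, ({j // s j = b} → S) ⧸
        LinearMap.range (bl A r s a c b).vecMulLinear)) := by
  classical
  let Φ : ∀ b : β, (κ → S) →ₗ[S] ({j // s j = b} → S) := fun b =>
    { toFun := fun x j => x j.1 * ((c j.1)⁻¹ : Sˣ)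
      map_add' := fun x y => by funext j; simp [add_mul]
      map_smul' := fun a x => by funext j; simp [mul_assoc] }
  have hΦ : ∀ b x j, Φ b x j = x j.1 * ((c j.1)⁻¹ : Sˣ) := fun _ _ _ => rfl
  have key : ∀ (b : β) (y : ι → S), Φ b (y ᵥ* A)
      = (fun i : {i // r i = b} => y i.1 * ((a i.1)⁻¹ : Sˣ)) ᵥ* bl A r s a c b := by
    intro b y
    funext j
    rw [hΦ]
    simp only [Matrix.vecMul, dotProduct]
    simp only [bl]
    rw [Finset.sum_mul, ← Finset.sum_subtype (Finset.univ.filter (fun i => r i = b))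
      (by simp) (fun i => y i * ((a i)⁻¹ : Sˣ) * ((a i : S) * A i j.1 * ((c j.1)⁻¹ : Sˣ))),
      Finset.sum_filter]
    refine Finset.sum_congr rfl fun i _ => ?_
    split_ifs with hi
    · calc y i * A i j.1 * ((c j.1)⁻¹ : Sˣ)
          = y i * ((((a i)⁻¹ : Sˣ) : S) * (a i : S)) * A i j.1 * ((c j.1)⁻¹ : Sˣ) := by
            rw [Units.inv_mul, mul_one]
        _ = _ := by simp only [mul_assoc]
    · have h0 : A i j.1 = 0 := h i j.1 (fun hh => hi (by rw [hh]; exact j.2))
      rw [h0, mul_zero, zero_mul]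
  let F : (κ → S) →ₗ[S] (∀ b : β, ({j // s j = b} → S) ⧸
        LinearMap.range (bl A r s a c b).vecMulLinear) :=
    LinearMap.pi fun b => (LinearMap.range (bl A r s a c b).vecMulLinear).mkQ ∘ₗ Φ b
  have hF : ∀ x b, F x b
      = (LinearMap.range (bl A r s a c b).vecMulLinear).mkQ (Φ b x) := fun _ _ => rfl
  have hker : LinearMap.ker F = LinearMap.range A.vecMulLinear := by
    ext x
    rw [LinearMap.mem_ker]
    constructor
    · intro hx
      have hx' : ∀ b, ∃ z : {i // r i = b} → S, z ᵥ* bl A r s a c b = Φ b x := by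
        intro b
        have h1 := congrFun hx b
        rw [hF, Pi.zero_apply, ← LinearMap.mem_ker, Submodule.ker_mkQ] at h1
        exact h1
      choose z hz using hx'
      refine ⟨fun i => z (r i) ⟨i, rfl⟩ * (a i : S), ?_⟩
      rw [Matrix.vecMulLinear_apply]
      funext j
      have h1 := key (s j) (fun i => z (r i) ⟨i, rfl⟩ * (a i : S))
      have h2 : (fun i : {i // r i = s j} => z (r i.1) ⟨i.1, rfl⟩ *
          (a i.1 : S) * ((a i.1)⁻¹ : Sˣ)) = z (s j) := by
        funext i
        rw [mul_assoc, Units.mul_inv, mul_one]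
        obtain ⟨i, hi⟩ := i
        have : ∀ (b : β) (hb : r i = b), z (r i) ⟨i, rfl⟩ = z b ⟨i, hb⟩ := by
          intro b hb; subst hb; rfl
        exact this _ hi
      rw [h2, hz] at h1
      have h3 := congrFun h1 ⟨j, rfl⟩
      rw [hΦ, hΦ] at h3
      have h4 := congrArg (· * (c j : S)) h3
      beta_reduce at h4
      rwa [mul_assoc, mul_assoc, Units.inv_mul, mul_one, mul_one] at h4
    · rintro ⟨y, rfl⟩
      funext b
      rw [hF, Pi.zero_apply, ← LinearMap.mem_ker, Submodule.ker_mkQ, Matrix.vecMulLinear_apply,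
        key]
      exact ⟨_, rfl⟩
  have hsurj : Function.Surjective F := by
    intro y
    have h1 : ∀ b, ∃ z : {j // s j = b} → S,
        (LinearMap.range (bl A r s a c b).vecMulLinear).mkQ z = y b := fun b =>
      Submodule.mkQ_surjective _ _
    choose z hz using h1
    refine ⟨fun j => z (s j) ⟨j, rfl⟩ * (c j : S), ?_⟩
    funext b
    rw [hF, ← hz b]
    congr 1
    funext j
    rw [hΦ, mul_assoc, Units.mul_inv, mul_one]
    obtain ⟨j, hj⟩ := j
    subst hj
    rfl
  exact ⟨(Submodule.quotEquivOfEq _ _ hker.symm).trans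
    (LinearMap.quotKerEquivOfSurjective F hsurj)⟩

/-- the rescaled blocks of a matrix in the other direction -/
def blY (Y : Matrix κ ι S) (b : β) : Matrix {j // s j = b} {i // r i = b} S := fun j i =>
  (c j.1 : S) * Y j.1 i.1 * ((a i.1)⁻¹ : Sˣ)

theorem bl_regular (h : ∀ i j, r i ≠ s j → A i j = 0) (Y : Matrix κ ι S) (hY : A * Y * A = A)
    (b : β) : bl A r s a c b * blY r s a c Y b * bl A r s a c b = bl A r s a c b := by
  classical
  ext1 i l
  have h1 : (A * Y * A) i.1 l.1 = A i.1 l.1 := by rw [hY]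
  rw [Matrix.mul_apply] at h1 ⊢
  have e1 : ∀ k : {i // r i = b}, (bl A r s a c b * blY r s a c Y b) i k
      = (a i.1 : S) * (A * Y) i.1 k.1 * ((a k.1)⁻¹ : Sˣ) := by
    intro k
    rw [Matrix.mul_apply, Matrix.mul_apply, ← Fintype.sum_subtype_add_sum_subtype
      (fun j => s j = b) (fun j => A i.1 j * Y j k.1)]
    have h0 : ∑ j : {j // ¬ s j = b}, A i.1 j.1 * Y j.1 k.1 = 0 := by
      refine Finset.sum_eq_zero fun j _ => ?_
      rw [h i.1 j.1 (fun hh => j.2 (by rw [← hh]; exact i.2)), zero_mul]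
    rw [h0, add_zero, Finset.mul_sum, Finset.sum_mul]
    refine Finset.sum_congr rfl fun j _ => ?_
    change ((a i.1 : S) * A i.1 j.1 * ((c j.1)⁻¹ : Sˣ)) *
      ((c j.1 : S) * Y j.1 k.1 * ((a k.1)⁻¹ : Sˣ)) = _
    calc _ = (a i.1 : S) * A i.1 j.1 * ((((c j.1)⁻¹ : Sˣ) : S) * (c j.1 : S)) * Y j.1 k.1
          * ((a k.1)⁻¹ : Sˣ) := by simp only [mul_assoc]
      _ = _ := by rw [Units.inv_mul, mul_one, mul_assoc (a i.1 : S)]
  rw [Finset.sum_congr rfl fun k _ => by rw [e1 k]]
  rw [← Fintype.sum_subtype_add_sum_subtype (fun k => r k = b)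
    (fun k => (A * Y) i.1 k * A k l.1)] at h1
  have h0 : ∑ k : {k // ¬ r k = b}, (A * Y) i.1 k.1 * A k.1 l.1 = 0 := by
    refine Finset.sum_eq_zero fun k _ => ?_
    rw [h k.1 l.1 (fun hh => k.2 (by rw [hh]; exact l.2)), mul_zero]
  rw [h0, add_zero] at h1
  change _ = (a i.1 : S) * A i.1 l.1 * ((c l.1)⁻¹ : Sˣ)
  rw [← h1, Finset.mul_sum, Finset.sum_mul]
  refine Finset.sum_congr rfl fun k _ => ?_
  change (a i.1 : S) * (A * Y) i.1 k.1 * ((a k.1)⁻¹ : Sˣ) *
    ((a k.1 : S) * A k.1 l.1 * ((c l.1)⁻¹ : Sˣ)) = _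
  calc _ = (a i.1 : S) * (A * Y) i.1 k.1 * ((((a k.1)⁻¹ : Sˣ) : S) * (a k.1 : S)) * A k.1 l.1
        * ((c l.1)⁻¹ : Sˣ) := by simp only [mul_assoc]
    _ = _ := by rw [Units.inv_mul, mul_one, mul_assoc (a i.1 : S)]

end blocks

/-- `P` is a finite direct sum of modules induced from the subrings `X.sub (V b)` with `V b` a
virtually cyclic (cyclic, if `G` is torsion-free) subgroup of `G`, which are projective over these
subrings if `P` is projective. -/
def CrossedSum {S : Type} [Ring S] {G : Type} [Group G] (X : CrossedProduct S G) (P : Type)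
    [AddCommGroup P] [Module S P] : Prop :=
  ∃ (k : ℕ) (V : Fin k → Subgroup G) (p q : Fin k → ℕ)
    (B : ∀ b, Matrix (Fin (p b)) (Fin (q b)) (X.sub (V b))),
    (∀ b, IsVC (V b)) ∧ (TF G → ∀ b, IsCyclic (V b)) ∧
    Nonempty (P ≃ₗ[S] ∀ b, Coker ((B b).map (X.sub (V b)).subtype)) ∧
    (Module.Projective S P → ∀ b, Module.Projective (X.sub (V b)) (Coker (B b)))

/-- The matrix `M` over the crossed product is controlled by the matrix `A`: if the component of
degree `g` of `M i j` is not zero then the coefficient of `A i j` at `g` is not zero. -/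
def CtrlC {S : Type} [Ring S] {G : Type} [Group G] (X : CrossedProduct S G) {m n : ℕ}
    (A : Matrix (Fin m) (Fin n) (MonoidAlgebra ℤ G)) (M : Matrix (Fin m) (Fin n) S) : Prop :=
  ∀ i j g, (X.δ (M i j)).coeff g ≠ 0 → (A i j).coeff g ≠ 0

theorem ctrl_crossed {S : Type} [Ring S] {G : Type} [Group G] (X : CrossedProduct S G)
    (P : Type) [AddCommGroup P] [Module S P]
    (m n : ℕ) (M : Matrix (Fin m) (Fin n) S)
    (e : P ≃ₗ[S] Coker M) (A : Matrix (Fin m) (Fin n) (MonoidAlgebra ℤ G))
    (c : ℝ) (hc0 : 0 < c) (hc : c ^ 2 < 9 / 2) (hA : NormLE A c) (hM : CtrlC X A M) :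
    CrossedSum X P := by
  classical
  obtain ⟨ρ, u, C, hC, hst⟩ := structure_vc A c hc0 hc hA
  let r : Fin m → Fin (m + n) := fun i => finSumFinEquiv (ρ (Sum.inl i))
  let s : Fin n → Fin (m + n) := fun j => finSumFinEquiv (ρ (Sum.inr j))
  let V : Fin (m + n) → Subgroup G := fun b => C (finSumFinEquiv.symm b)
  let a : Fin m → Sˣ := fun i => X.un (u (Sum.inl i))
  let w : Fin n → Sˣ := fun j => X.un (u (Sum.inr j))
  have hz : ∀ i j, r i ≠ s j → M i j = 0 := by
    intro i j hij
    apply X.inj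
    rw [map_zero]
    ext g
    by_contra h0
    exact hij (congrArg _ (hst i j g (hM i j g h0)).1)
  have hmem : ∀ b (i : {i // r i = b}) (j : {j // s j = b}), bl M r s a w b i j ∈ X.sub (V b) := by
    intro b i j g hg
    have h1 := X.supp_conj _ _ _ g hg
    have h2 := (hst i.1 j.1 _ (hM i.1 j.1 _ h1)).2
    have h3 : u (Sum.inl i.1) * ((u (Sum.inl i.1))⁻¹ * g * u (Sum.inr j.1))
        * (u (Sum.inr j.1))⁻¹ = g := by group
    rw [h3] at h2
    change g ∈ C (finSumFinEquiv.symm b)
    have h4 : finSumFinEquiv.symm b = ρ (Sum.inl i.1) := by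
      have h5 : finSumFinEquiv (ρ (Sum.inl i.1)) = b := i.2
      exact (Equiv.symm_apply_eq _).2 h5.symm
    rw [h4]
    exact h2
  let Bb : ∀ b, Matrix {i // r i = b} {j // s j = b} (X.sub (V b)) := fun b i j =>
    ⟨bl M r s a w b i j, hmem b i j⟩
  have hBb : ∀ b, (Bb b).map (X.sub (V b)).subtype = bl M r s a w b := fun b => rfl
  let er : ∀ b, Fin (Fintype.card {i // r i = b}) ≃ {i // r i = b} := fun b =>
    (Fintype.equivFin _).symm
  let es : ∀ b, Fin (Fintype.card {j // s j = b}) ≃ {j // s j = b} := fun b =>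
    (Fintype.equivFin _).symm
  refine ⟨m + n, V, fun b => Fintype.card {i // r i = b}, fun b => Fintype.card {j // s j = b},
    fun b => (Bb b).submatrix (er b) (es b), fun b => hC _, ?_, ?_, ?_⟩
  · intro htf b
    obtain ⟨t, ht⟩ := hC (finSumFinEquiv.symm b)
    exact isCyclic_of_finiteIndex (S := C (finSumFinEquiv.symm b)) (fun g n hn h => Subtype.ext
      (htf g.1 n hn (by simpa using congrArg Subtype.val h))) (Subgroup.zpowers t)
      inferInstance ht
  · obtain ⟨ψ⟩ := coker_blocks M r s a w hz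
    have h2 : ∀ b, Nonempty (((({j // s j = b} → S) ⧸
        LinearMap.range (bl M r s a w b).vecMulLinear)) ≃ₗ[S]
        ((Fin (Fintype.card {j // s j = b}) → S) ⧸
        LinearMap.range (((Bb b).submatrix (er b) (es b)).map
          (X.sub (V b)).subtype).vecMulLinear)) := fun b =>
      coker_reindex (bl M r s a w b) (er b) (es b)
    exact ⟨(e.trans ψ).trans (LinearEquiv.piCongrRight fun b => (h2 b).some)⟩
  · intro hP b
    obtain ⟨Y, hY⟩ := regular_of_projective M P hP e
    have hreg := bl_regular M r s a w hz Y hY b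
    let Z : Matrix {j // s j = b} {i // r i = b} (X.sub (V b)) := fun j i =>
      ⟨X.tr (V b) (blY r s a w Y b j i), X.tr_mem _ _⟩
    have hZ : Bb b * Z * Bb b = Bb b := by
      ext1 i l
      apply Subtype.ext
      have h1 := congrArg (X.tr (V b)) (congrFun (congrFun hreg i) l)
      rw [X.tr_of (V b) _ (hmem b i l)] at h1
      change _ = bl M r s a w b i l
      rw [← h1, Matrix.mul_apply, Matrix.mul_apply, X.tr_sum]
      rw [← Subring.subtype_apply, map_sum]
      refine Finset.sum_congr rfl fun k _ => ?_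
      rw [X.tr_mul' (V b) _ _ (hmem b k l), map_mul]
      congr 1
      rw [Matrix.mul_apply, Matrix.mul_apply, X.tr_sum, map_sum]
      refine Finset.sum_congr rfl fun j _ => ?_
      rw [X.tr_mul (V b) _ _ (hmem b i j), map_mul]
      rfl
    obtain ⟨ψ⟩ := coker_reindex (Bb b) (er b) (es b)
    haveI := TH57.Thr.projective_of_regular _ Z hZ
    exact Module.Projective.of_equiv ψ

end TH6.FB
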