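import Pool.Agent.TH6.FB.Gen
import Pool.Agent.TH6.CR.Main
import Pool.Agent.TH6.CX.VC

set_option autoImplicit false
set_option linter.style.haveILetI false
set_option linter.unusedSectionVars false
set_option linter.unusedVariables false

/-! Complexes over a group ring `RE` which are controlled over a quotient `G` of `E` by a matrix of
small norm. -/

namespace TH6.FB

open Matrix TH57.Thr TH6.LF TH6.PF TH6.CX TH6.CR

section el

variable {R : Type} [Ring R] {G : Type} [Group G] {κ : Type} [Fintype κ] [DecidableEq κ]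
  {𝓕 : Subgroup G → Prop}

theorem tv_mem (h𝓕 : ∀ g : G, ∃ C, 𝓕 C ∧ g ∈ C) (i j : κ) (h : i ≠ j)
    (a : MonoidAlgebra R G) : tv i j h a ∈ FGen R G κ 𝓕 := by
  induction a using MonoidAlgebra.induction_linear with
  | zero =>
    have : tv i j h (0 : MonoidAlgebra R G) = 1 := by
      apply Units.ext
      change 1 + Matrix.single i j (0 : MonoidAlgebra R G) = 1
      rw [Matrix.single_zero, add_zero]
    rw [this]
    exact one_mem _
  | add a b ha hb => rw [tv_add]; exact mul_mem ha hb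
  | single g r =>
    obtain ⟨C, hC, hg⟩ := h𝓕 g
    apply gen_of_supp _ C hC
    intro k l x hx
    change ((1 + Matrix.single i j (MonoidAlgebra.single g r) :
      Matrix κ κ (MonoidAlgebra R G)) k l).coeff x ≠ 0 at hx
    rw [Matrix.add_apply, MonoidAlgebra.coeff_add, Finsupp.add_apply] at hx
    by_cases h1 : ((1 : Matrix κ κ (MonoidAlgebra R G)) k l).coeff x = 0
    · rw [h1, zero_add, Matrix.single_apply] at hx
      split_ifs at hx with h2
      · have : x = g := by
          by_contra h3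
          apply hx
          rw [MonoidAlgebra.coeff_single, Finsupp.single_eq_of_ne h3]
        rw [this]
        exact hg
      · exact absurd rfl hx
    · rw [Matrix.one_apply] at h1
      split_ifs at h1 with h2
      · exact one_supp _ x h1
      · exact absurd rfl h1

theorem El_mem (h𝓕 : ∀ g : G, ∃ C, 𝓕 C ∧ g ∈ C) (x : (Matrix κ κ (MonoidAlgebra R G))ˣ)
    (h : x.val ∈ El (R := MonoidAlgebra R G) κ) : x ∈ FGen R G κ 𝓕 := by
  have key : ∀ M ∈ El (R := MonoidAlgebra R G) κ,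
      ∃ u : (Matrix κ κ (MonoidAlgebra R G))ˣ, u.val = M ∧ u ∈ FGen R G κ 𝓕 := by
    intro M hM
    induction hM using Submonoid.closure_induction with
    | mem x hx =>
      obtain ⟨i, j, hij, a, rfl⟩ := hx
      exact ⟨tv i j hij a, rfl, tv_mem h𝓕 i j hij a⟩
    | one => exact ⟨1, rfl, one_mem _⟩
    | mul x y _ _ hx hy =>
      obtain ⟨u, hu1, hu2⟩ := hx
      obtain ⟨v, hv1, hv2⟩ := hy
      exact ⟨u * v, by rw [Units.val_mul, hu1, hv1], mul_mem hu2 hv2⟩
  obtain ⟨u, hu1, hu2⟩ := key _ h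
  have : x = u := Units.ext hu1.symm
  rw [this]; exact hu2

end el

variable {R : Type} [Ring R] {E G : Type} [Group E] [Group G] (φ : E →* G)
  (hφ : Function.Surjective φ) {ι : Type} [Fintype ι] [DecidableEq ι]

/-- The support of `M` is controlled over `G` by the matrix `A`: if the coefficient of the entry
`M i j` at `e` is not zero then the coefficient of `A i j` at the image of `e` is not zero. -/
def Controlled (A : Matrix ι ι (MonoidAlgebra ℤ G)) (M : Matrix ι ι (MonoidAlgebra R E)) : Prop :=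
  ∀ i j e, (M i j).coeff e ≠ 0 → (A i j).coeff (φ e) ≠ 0

/-- The image of `H` in `G` is virtually cyclic. -/
def VCImage (H : Subgroup E) : Prop := IsVC (H.map φ)

theorem vcImage_cover (e : E) : ∃ C, VCImage φ C ∧ e ∈ C := by
  refine ⟨Subgroup.zpowers e, ?_, Subgroup.mem_zpowers e⟩
  change IsVC ((Subgroup.zpowers e).map φ)
  rw [MonoidHom.map_zpowers]
  exact isVC_zpowers _

include hφ in
theorem controlled_structure (A : Matrix ι ι (MonoidAlgebra ℤ G))
    (hsym : ∀ i j g, (A i j).coeff g ≠ 0 → (A j i).coeff g⁻¹ ≠ 0)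
    (c : ℝ) (hc0 : 0 < c) (hc : c ^ 2 < 9 / 2) (hA : NormLE A c)
    (d : Matrix ι ι (MonoidAlgebra R E)) (hd : Controlled φ A d) :
    ∃ (ρ : ι → ι) (u : ι → E) (C : ι → Subgroup E),
      (∀ b, VCImage φ (C b)) ∧ InBlocks ρ C (cu (dmU R u) d) := by
  obtain ⟨ρ, u, C, hC, hst⟩ := sym_structure_vc A hsym c hc0 hc hA
  choose v hv using fun i => hφ (u i)
  refine ⟨ρ, v, fun b => (C b).comap φ, fun b => ?_, fun i j e hne => ?_⟩
  · change IsVC (((C b).comap φ).map φ)
    rw [Subgroup.map_comap_eq_self_of_surjective hφ]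
    exact hC b
  · have h0 : (d i j).coeff ((v i)⁻¹ * e * v j) ≠ 0 := by
      rwa [← coeff_dmU]
    have h1 := hst i j _ (hd i j _ h0)
    refine ⟨h1.1, ?_⟩
    have h2 := h1.2
    rw [map_mul, map_mul, map_inv, hv, hv] at h2
    have h3 : u i * ((u i)⁻¹ * φ e * u j) * (u j)⁻¹ = φ e := by group
    rwa [h3] at h2

include hφ in
theorem F_complex (deg : ι → ℤ) (d s : Matrix ι ι (MonoidAlgebra R E)) (hd : IsBd deg d)
    (hs : IsCt deg d s) (A : Matrix ι ι (MonoidAlgebra ℤ G))
    (hsym : ∀ i j g, (A i j).coeff g ≠ 0 → (A j i).coeff g⁻¹ ≠ 0)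
    (c : ℝ) (hc0 : 0 < c) (hc : c ^ 2 < 9 / 2) (hA : NormLE A c) (hdA : Controlled φ A d)
    (e : Ob deg ≃ Eb deg) (x : (Matrix (Ob deg) (Ob deg) (MonoidAlgebra R E))ˣ)
    (hx : (x : Matrix (Ob deg) (Ob deg) (MonoidAlgebra R E)) = (tor deg d s).submatrix id e) :
    x ∈ FGen R E (Ob deg) (VCImage φ) := by
  classical
  obtain ⟨ρ, u, C, hC, hpat⟩ := controlled_structure φ hφ A hsym c hc0 hc hA d hdA
  set d1 := cu (dmU R u) d with hd1
  set s1 := cu (dmU R u) s with hs1
  have hbd : IsBd deg d1 := by rw [hd1, ← dsu_one]; exact bd_cu 1 u hd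
  have hct : IsCt deg d1 s1 := by rw [hd1, hs1, ← dsu_one]; exact ct_cu 1 u hs
  have hct2 := tct_ct deg ρ C d1 s1 hct hpat
  obtain ⟨x1, hx1, _⟩ := tor_unit hbd hct e
  obtain ⟨x2, hx2, _⟩ := tor_unit hbd hct2 e
  have t2 : x2 ∈ FGen R E (Ob deg) (VCImage φ) := by
    refine block_mem C hC (vcImage_cover φ) (fun i : Ob deg => ρ i.1)
      (fun i : Ob deg => ρ (e i).1) x2 ?_
    intro i j g hg
    rw [hx2] at hg
    change ((d1 + tct ρ C s1) i.1 (e j).1).coeff g ≠ 0 at hg
    rw [Matrix.add_apply, coeff_ad] at hg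
    by_cases h1 : (d1 i.1 (e j).1).coeff g = 0
    · rw [h1, zero_add] at hg
      exact tct_supp ρ C s1 _ _ g hg
    · exact hpat _ _ g h1
  have t1 : x1 ∈ FGen R E (Ob deg) (VCImage φ) := by
    obtain ⟨n1, y, n2, h1, h2, h3, h4⟩ := indep_factor hbd hct hct2 e x1 x2 hx1 hx2
    rw [h4]
    exact mul_mem (inv_mem (El_mem (vcImage_cover φ) _ h1))
      (mul_mem (mul_mem (El_mem (vcImage_cover φ) _ h2) t2) (El_mem (vcImage_cover φ) _ h3))
  have hxx : x = (dmU R (fun i : Ob deg => u i.1))⁻¹ * x1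
      * dmU R (fun i : Ob deg => u (e i).1) := by
    have h1 : x1 = dmU R (fun i : Ob deg => u i.1) * x
        * (dmU R (fun i : Ob deg => u (e i).1))⁻¹ := by
      apply Units.ext
      ext i j g
      rw [hx1, Units.val_mul, Units.val_mul, coeff_dmU]
      change ((d1 + s1) i.1 (e j).1).coeff g = _
      have h2 : d1 + s1 = cu (dmU R u) (d + s) := by rw [hd1, hs1, cu_add]
      rw [h2]
      change (((dmU R u).val * (d + s) * (dmU R u)⁻¹.val) i.1 (e j).1).coeff g = _
      rw [coeff_dmU, hx]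
      rfl
    rw [h1]; group
  rw [hxx]
  exact mul_mem (mul_mem (inv_mem (dmU_mem (vcImage_cover φ) _)) t1)
    (dmU_mem (vcImage_cover φ) _)

include hφ in
theorem F_contraction (deg : ι → ℤ) (d s : Matrix ι ι (MonoidAlgebra R E)) (hd : IsBd deg d)
    (hs : IsCt deg d s) (hss : s * s = 0) (A : Matrix ι ι (MonoidAlgebra ℤ G))
    (hsym : ∀ i j g, (A i j).coeff g ≠ 0 → (A j i).coeff g⁻¹ ≠ 0)
    (c : ℝ) (hc0 : 0 < c) (hc : c ^ 2 < 9 / 2) (hA : NormLE A c) (hsA : Controlled φ A s)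
    (e : Ob deg ≃ Eb deg) (x : (Matrix (Ob deg) (Ob deg) (MonoidAlgebra R E))ˣ)
    (hx : (x : Matrix (Ob deg) (Ob deg) (MonoidAlgebra R E)) = (tor deg d s).submatrix id e) :
    x ∈ FGen R E (Ob deg) (VCImage φ) := by
  classical
  let deg' : ι → ℤ := fun i => -deg i
  have hd' : IsBd deg' s := ⟨fun i j h => by
    have := hs.degree i j h
    change -deg i = -deg j + 1
    omega, hss⟩
  have hs' : IsCt deg' s d := ⟨fun i j h => by
    have := hd.degree i j h
    change -deg j = -deg i + 1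
    omega, by rw [add_comm]; exact hs.eq⟩
  let eo : Ob deg' ≃ Ob deg := Equiv.subtypeEquivRight (fun i => by
    change Odd (-deg i) ↔ Odd (deg i)
    exact odd_neg)
  let ee : Eb deg' ≃ Eb deg := Equiv.subtypeEquivRight (fun i => by
    change Even (-deg i) ↔ Even (deg i)
    exact even_neg)
  let e' : Ob deg' ≃ Eb deg' := (eo.trans e).trans ee.symm
  have h1 : Units.map (re (R := MonoidAlgebra R E) eo) x ∈ FGen R E (Ob deg') (VCImage φ) := by
    apply F_complex φ hφ deg' s d hd' hs' A hsym c hc0 hc hA hsA e'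
    ext1 i j
    change (x : Matrix (Ob deg) (Ob deg) (MonoidAlgebra R E)) (eo i) (eo j) = _
    rw [hx]
    change (d + s) (eo i).1 (e (eo j)).1 = (s + d) i.1 (e' j).1
    rw [add_comm d s]
    rfl
  have h3 : x = Units.map (re (R := MonoidAlgebra R E) eo.symm)
      (Units.map (re (R := MonoidAlgebra R E) eo) x) := by
    apply Units.ext
    ext1 i j
    change _ = (x : Matrix (Ob deg) (Ob deg) (MonoidAlgebra R E)) (eo (eo.symm i))
      (eo (eo.symm j))
    rw [Equiv.apply_symm_apply, Equiv.apply_symm_apply]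
  have h4 : FGen R E (Ob deg') (VCImage φ) ≤ (FGen R E (Ob deg) (VCImage φ)).comap
      (Units.map (re (R := MonoidAlgebra R E) eo.symm)) := by
    refine (Subgroup.closure_le _).2 ?_
    rintro z ⟨C, y, hC, hz⟩
    refine Subgroup.subset_closure ⟨C, Units.map (re (R := MonoidAlgebra R C) eo.symm) y, hC, ?_⟩
    ext1 i j
    change z.val (eo.symm i) (eo.symm j) = _
    rw [hz]
    rfl
  rw [h3]
  exact h4 h1

/-- The matrix of `d + s` from the odd to the even part of the complex, with the basis elements of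
even degree numbered by those of odd degree. -/
noncomputable def torMatrix (deg : ι → ℤ) (d s : Matrix ι ι (MonoidAlgebra R E))
    (e : {i // Odd (deg i)} ≃ {i // Even (deg i)}) :
    Matrix {i // Odd (deg i)} {i // Odd (deg i)} (MonoidAlgebra R E) :=
  fun i j => d i.1 (e j).1 + s i.1 (e j).1

include hφ in
theorem F_main (deg : ι → ℤ) (d : Matrix ι ι (MonoidAlgebra R E)) (hd : IsBd deg d)
    (A : Matrix ι ι (MonoidAlgebra ℤ G))
    (hsym : ∀ i j g, (A i j).coeff g ≠ 0 → (A j i).coeff g⁻¹ ≠ 0)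
    (c : ℝ) (hc0 : 0 < c) (hc : c ^ 2 < 9 / 2) (hA : NormLE A c)
    (hthin : Controlled φ A d ∨ ∃ t, IsCt deg d t ∧ t * t = 0 ∧ Controlled φ A t)
    (s : Matrix ι ι (MonoidAlgebra R E)) (hs : IsCt deg d s)
    (e : {i // Odd (deg i)} ≃ {i // Even (deg i)}) :
    ∃ T : (Matrix {i // Odd (deg i)} {i // Odd (deg i)} (MonoidAlgebra R E))ˣ,
        T.val = torMatrix deg d s e ∧ T ∈ FGen R E {i // Odd (deg i)} (VCImage φ) := by
  obtain ⟨x, hx, _⟩ := tor_unit hd hs e
  refine ⟨x, by rw [hx]; rfl, ?_⟩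
  rcases hthin with hdA | ⟨t, ht, htt, htA⟩
  · exact F_complex φ hφ deg d s hd hs A hsym c hc0 hc hA hdA e x hx
  · obtain ⟨y, hy, _⟩ := tor_unit hd ht e
    obtain ⟨n1, z, n2, h1, h2, h3, h4⟩ := indep_factor hd hs ht e x y hx hy
    rw [h4]
    exact mul_mem (inv_mem (El_mem (vcImage_cover φ) _ h1))
      (mul_mem (mul_mem (El_mem (vcImage_cover φ) _ h2)
      (F_contraction φ hφ deg d t hd ht htt A hsym c hc0 hc hA htA e y hy))
      (El_mem (vcImage_cover φ) _ h3))

end TH6.FB
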