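import Pool.Agent.TH6.PF.PGen

set_option autoImplicit false
set_option linter.style.haveILetI false
set_option linter.unusedSectionVars false
set_option linter.unusedVariables false

/-! The subgroup of the general linear group of a group ring generated by the general linear groups
of the group rings of the subgroups in a family. -/

namespace TH6.FB

open Matrix TH57.Thr TH6.LF TH6.PF

variable {R : Type} [Ring R] {G : Type} [Group G] {κ β : Type} [Fintype κ] [DecidableEq κ]

variable (R G κ)

/-- The subgroup of the general linear group over the group ring `RG` which is generated by the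
general linear groups over the group rings of the subgroups in the family `𝓕`. -/
noncomputable def FGen (𝓕 : Subgroup G → Prop) : Subgroup (Matrix κ κ (MonoidAlgebra R G))ˣ :=
  Subgroup.closure {x | ∃ (C : Subgroup G) (y : (Matrix κ κ (MonoidAlgebra R C))ˣ), 𝓕 C ∧
    x.val = y.val.map (MonoidAlgebra.mapDomain C.subtype)}

variable {R G κ} {𝓕 : Subgroup G → Prop}

theorem gen_of_supp (x : (Matrix κ κ (MonoidAlgebra R G))ˣ) (C : Subgroup G) (hC : 𝓕 C)
    (h : ∀ i j g, (x.val i j).coeff g ≠ 0 → g ∈ C) : x ∈ FGen R G κ 𝓕 := by
  let f := C.subtype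
  have hf : Function.Injective f := C.subtype_injective
  let P : Matrix κ κ (MonoidAlgebra R C) := x.val.map (MonoidAlgebra.comapDomain f hf)
  let Q : Matrix κ κ (MonoidAlgebra R C) := x⁻¹.val.map (MonoidAlgebra.comapDomain f hf)
  have hr : ∀ i j g, (x.val i j).coeff g ≠ 0 → g ∈ f.range := fun i j g hg => by
    have := h i j g hg
    simpa [f] using this
  have hone : (1 : Matrix κ κ (MonoidAlgebra R G)).map (MonoidAlgebra.comapDomain f hf) = 1 := by
    ext1 i j
    rw [Matrix.map_apply, Matrix.one_apply, Matrix.one_apply]
    split_ifs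
    · exact comap_one' _ _
    · exact MonoidAlgebra.comapDomain_zero _ _
  have hPQ : P * Q = 1 := by
    rw [← hone, ← x.mul_inv]
    ext1 i j
    rw [Matrix.map_apply, Matrix.mul_apply, Matrix.mul_apply, comap_sum']
    exact Finset.sum_congr rfl fun k _ => (comap_mul_left f hf _ _ (hr i k)).symm
  have hQP : Q * P = 1 := by
    rw [← hone, ← x.inv_mul]
    ext1 i j
    rw [Matrix.map_apply, Matrix.mul_apply, Matrix.mul_apply, comap_sum']
    exact Finset.sum_congr rfl fun k _ => (comap_mul_right f hf _ _ (hr k j)).symm
  refine Subgroup.subset_closure ⟨C, ⟨P, Q, hPQ, hQP⟩, hC, ?_⟩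
  ext1 i j
  symm
  change MonoidAlgebra.mapDomain f (MonoidAlgebra.comapDomain f hf (x.val i j)) = x.val i j
  apply MonoidAlgebra.mapDomain_comapDomain
  intro g hg
  exact hr i j g (Finsupp.mem_support_iff.1 hg)

theorem dmU_mem (h𝓕 : ∀ g : G, ∃ C, 𝓕 C ∧ g ∈ C) (u : κ → G) : dmU R u ∈ FGen R G κ 𝓕 := by
  classical
  have key : ∀ s : Finset κ, dmU R (fun i => if i ∈ s then u i else 1) ∈ FGen R G κ 𝓕 := by
    intro s
    induction s using Finset.induction_on with
    | empty =>
      have : (fun i => if i ∈ (∅ : Finset κ) then u i else 1) = 1 := by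
        funext i; simp
      rw [this, dmU_one]
      exact one_mem _
    | insert a s ha ih =>
      have : (fun i => if i ∈ insert a s then u i else 1)
          = (fun i => if i = a then u a else 1) * (fun i => if i ∈ s then u i else 1) := by
        funext i
        rw [Pi.mul_apply]
        by_cases h : i = a
        · subst h; simp [ha]
        · simp [h]
      rw [this, dmU_mul]
      obtain ⟨C, hC, hua⟩ := h𝓕 (u a)
      refine mul_mem (gen_of_supp _ C hC ?_) ih
      intro i j g hg
      change ((Matrix.diagonal fun i => MonoidAlgebra.single (if i = a then u a else 1) (1 : R)) i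
        j).coeff g ≠ 0 at hg
      rw [Matrix.diagonal_apply] at hg
      split_ifs at hg with h1 h2
      · rw [MonoidAlgebra.coeff_single, Finsupp.single_apply] at hg
        split_ifs at hg with h3
        · rw [← h3]; exact hua
        · exact absurd rfl hg
      · rw [MonoidAlgebra.coeff_single, Finsupp.single_apply] at hg
        split_ifs at hg with h3
        · rw [← h3]; exact one_mem _
        · exact absurd rfl hg
      · exact absurd rfl hg
  have := key Finset.univ
  simpa using this


section blocks

variable [DecidableEq β] [Fintype β] (C : β → Subgroup G) (hC : ∀ a, 𝓕 (C a))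

include hC in
theorem diag_mem (ρ : κ → β) (x : (Matrix κ κ (MonoidAlgebra R G))ˣ)
    (hx : ∀ i j g, (x.val i j).coeff g ≠ 0 → ρ i = ρ j ∧ g ∈ C (ρ i)) : x ∈ FGen R G κ 𝓕 := by
  classical
  let θ := blk ρ ρ C x.val
  let η := blk ρ ρ C x⁻¹.val
  have h1 : ∀ a, θ a * η a = 1 := fun a => blk_mul ρ ρ C _ _ x.mul_inv hx a
  have h2 : ∀ a, η a * θ a = 1 := fun a => blk_mul' ρ ρ C _ _ x.inv_mul hx a
  let U : Finset β → (Matrix κ κ (MonoidAlgebra R G))ˣ := fun s =>
    { val := blockSum ρ ρ C fun a => if a ∈ s then θ a else 1
      inv := blockSum ρ ρ C fun a => if a ∈ s then η a else 1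
      val_inv := by
        rw [blockSum_mul, ← blockSum_one ρ C]
        congr 1
        funext a
        split_ifs
        · exact h1 a
        · exact mul_one _
      inv_val := by
        rw [blockSum_mul, ← blockSum_one ρ C]
        congr 1
        funext a
        split_ifs
        · exact h2 a
        · exact mul_one _ }
  have key : ∀ s, U s ∈ FGen R G κ 𝓕 := by
    intro s
    induction s using Finset.induction_on with
    | empty =>
      have : U ∅ = 1 := by
        ext1
        change (blockSum ρ ρ C fun a => if a ∈ (∅ : Finset β) then θ a else 1) = 1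
        rw [← blockSum_one ρ C]
        congr 1
      rw [this]
      exact one_mem _
    | insert b s hb ih =>
      have : U (insert b s) = U {b} * U s := by
        ext1
        change (blockSum ρ ρ C fun a => if a ∈ insert b s then θ a else 1)
          = (blockSum ρ ρ C fun a => if a ∈ ({b} : Finset β) then θ a else 1)
            * (blockSum ρ ρ C fun a => if a ∈ s then θ a else 1)
        rw [blockSum_mul]
        congr 1
        funext a
        by_cases h : a = b
        · subst h
          rw [if_pos (Finset.mem_insert_self _ _), if_pos (Finset.mem_singleton_self _),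
            if_neg hb, mul_one]
        · have e1 : a ∈ insert b s ↔ a ∈ s := by simp [h]
          have e2 : ¬ a ∈ ({b} : Finset β) := by simpa using h
          rw [if_neg e2, one_mul]
          exact if_congr e1 rfl rfl
      rw [this]
      refine mul_mem (gen_of_supp _ (C b) (hC b) fun i j g hg => ?_) ih
      change ((blockSum ρ ρ C fun a => if a ∈ ({b} : Finset β) then θ a else 1) i j).coeff g ≠ 0
        at hg
      by_cases h : ρ i = b
      · have := (blockSum_supp ρ ρ C _ i j g hg).2
        rwa [h] at this
      · -- the block is the identity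
        unfold blockSum at hg
        split_ifs at hg with h3
        · have h9 : (if ρ i ∈ ({b} : Finset β) then θ (ρ i) else 1) = 1 :=
            if_neg (by simpa using h)
          change (MonoidAlgebra.mapDomain (C (ρ i)).subtype
            ((if ρ i ∈ ({b} : Finset β) then θ (ρ i) else 1) ⟨i, rfl⟩ ⟨j, h3⟩)).coeff g ≠ 0 at hg
          rw [h9, Matrix.one_apply] at hg
          split_ifs at hg with h4
          · have h5 : (MonoidAlgebra.mapDomain (C (ρ i)).subtype
                (1 : MonoidAlgebra R (C (ρ i)))) = 1 :=
              map_one (MonoidAlgebra.mapDomainRingHom R (C (ρ i)).subtype)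
            rw [h5, MonoidAlgebra.one_def, MonoidAlgebra.coeff_single, Finsupp.single_apply] at hg
            split_ifs at hg with h6
            · rw [← h6]; exact one_mem _
            · exact absurd rfl hg
          · rw [MonoidAlgebra.mapDomain_zero] at hg
            exact absurd rfl hg
        · exact absurd rfl hg
  have h3 : x = U Finset.univ := by
    ext1
    change x.val = blockSum ρ ρ C fun a => if a ∈ Finset.univ then θ a else 1
    simp only [Finset.mem_univ, if_true]
    exact (blockSum_blk ρ ρ C x.val hx).symm
  rw [h3]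
  exact key _

include hC in
theorem block_mem (h𝓕 : ∀ g : G, ∃ C, 𝓕 C ∧ g ∈ C) (ρ σ : κ → β) (B : (Matrix κ κ (MonoidAlgebra R G))ˣ)
    (hB : ∀ i j g, (B.val i j).coeff g ≠ 0 → ρ i = σ j ∧ g ∈ C (ρ i)) : B ∈ FGen R G κ 𝓕 := by
  classical
  let φ : MonoidAlgebra R G →+* MonoidAlgebra R G :=
    MonoidAlgebra.mapDomainRingHom R (1 : G →* G)
  have hφ : ∀ x g, (φ x).coeff g ≠ 0 → g = 1 := by
    intro x g hg
    by_contra h
    apply hg
    change (MonoidAlgebra.mapDomain (1 : G →* G) x).coeff g = 0
    rw [MonoidAlgebra.coeff_mapDomain]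
    apply Finsupp.mapDomain_of_notMem_range
    rintro ⟨y, hy⟩
    exact h hy.symm
  let T : (Matrix κ κ (MonoidAlgebra R G))ˣ := Units.map (mpm φ) B⁻¹
  have hT : T ∈ FGen R G κ 𝓕 := by
    obtain ⟨C₀, hC₀, _⟩ := h𝓕 1
    refine gen_of_supp _ C₀ hC₀ fun i j g hg => ?_
    have := hφ (B⁻¹.val i j) g hg
    rw [this]
    exact one_mem _
  have hB' := inv_supp C ρ σ B.val B⁻¹.val B.mul_inv B.inv_mul hB
  have hBT : B * T ∈ FGen R G κ 𝓕 := by
    refine diag_mem C hC ρ _ fun i k g hg => ?_
    rw [Units.val_mul, Matrix.mul_apply] at hg
    obtain ⟨j, hj⟩ : ∃ j, (B.val i j * T.val j k).coeff g ≠ 0 := by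
      by_contra hcon
      push Not at hcon
      apply hg
      have h1 : (∑ j, B.val i j * T.val j k).coeff g = ∑ j, (B.val i j * T.val j k).coeff g := by
        rw [MonoidAlgebra.coeff_sum, Finsupp.finsetSum_apply]
      rw [h1]
      exact Finset.sum_eq_zero fun j _ => hcon j
    have h2 : (B⁻¹.val j k) ≠ 0 := by
      intro h0
      apply hj
      change (B.val i j * φ (B⁻¹.val j k)).coeff g = 0
      rw [h0, map_zero, mul_zero]
      rfl
    have h3 : ρ k = σ j := by
      by_contra h4
      apply h2
      rw [hB']
      exact dif_neg h4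
    have h5 : T.val j k = MonoidAlgebra.single 1 ((T.val j k).coeff 1) := by
      ext g'
      rw [MonoidAlgebra.coeff_single, Finsupp.single_apply]
      split_ifs with h6
      · rw [h6]
      · by_contra h7
        exact h6 (hφ _ g' h7).symm
    rw [h5, MonoidAlgebra.coeff_mul_single_apply, inv_one, mul_one] at hj
    have h6 := hB i j g (left_ne_zero_of_mul hj)
    exact ⟨h6.1.trans h3.symm, h6.2⟩
  have : B = B * T * T⁻¹ := by group
  rw [this]
  exact mul_mem hBT (inv_mem hT)

end blocks

end TH6.FB
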