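import Pool.Agent.TH6.FB.Cx
import Pool.Agent.TH6.PF.KSt

set_option autoImplicit false
set_option linter.style.haveILetI false
set_option linter.unusedSectionVars false
set_option linter.unusedVariables false

/-! Modules over a group ring `RE` with a presentation which is controlled over a quotient `G` of
`E` by a matrix of small norm. -/

namespace TH6.FB

open Matrix TH57.Thr TH6.LF TH6.PF

variable {R : Type} [Ring R] {E G : Type} [Group E] [Group G] (φ : E →* G)

/-- `P` is a finite direct sum of modules induced from subgroups `V b` of `E` with virtually cyclic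
(cyclic, if `G` is torsion-free) image in `G`, which are projective over the group rings of the
`V b` if `P` is projective. -/
def FibSum (R : Type) [Ring R] {E G : Type} [Group E] [Group G] (φ : E →* G) (P : Type)
    [AddCommGroup P] [Module (MonoidAlgebra R E) P] : Prop :=
  ∃ (k : ℕ) (V : Fin k → Subgroup E) (p q : Fin k → ℕ)
    (B : ∀ b, Matrix (Fin (p b)) (Fin (q b)) (MonoidAlgebra R (V b))),
    (∀ b, IsVC ((V b).map φ)) ∧ (TF G → ∀ b, IsCyclic ((V b).map φ)) ∧
    Nonempty (P ≃ₗ[MonoidAlgebra R E] ∀ b, Coker (indM (B b))) ∧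
    (Module.Projective (MonoidAlgebra R E) P →
      ∀ b, Module.Projective (MonoidAlgebra R (V b)) (Coker (B b)))

/-- The support of `M` is controlled over `G` by the matrix `A`: if the coefficient of the entry
`M i j` at `e` is not zero then the coefficient of `A i j` at the image of `e` is not zero. -/
def Ctrl {m n : ℕ} (A : Matrix (Fin m) (Fin n) (MonoidAlgebra ℤ G))
    (M : Matrix (Fin m) (Fin n) (MonoidAlgebra R E)) : Prop :=
  ∀ i j e, (M i j).coeff e ≠ 0 → (A i j).coeff (φ e) ≠ 0

theorem ctrl_modules (hφ : Function.Surjective φ)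
    (P : Type) [AddCommGroup P] [Module (MonoidAlgebra R E) P]
    (m n : ℕ) (M : Matrix (Fin m) (Fin n) (MonoidAlgebra R E))
    (e : P ≃ₗ[MonoidAlgebra R E] Coker M) (A : Matrix (Fin m) (Fin n) (MonoidAlgebra ℤ G))
    (c : ℝ) (hc0 : 0 < c) (hc : c ^ 2 < 9 / 2) (hA : NormLE A c) (hM : Ctrl φ A M) :
    FibSum R φ P := by
  classical
  obtain ⟨ρ, u, C, hC, hst⟩ := structure_vc A c hc0 hc hA
  choose v hv using fun i => hφ (u i)
  let r : Fin m → Fin (m + n) := fun i => finSumFinEquiv (ρ (Sum.inl i))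
  let s : Fin n → Fin (m + n) := fun j => finSumFinEquiv (ρ (Sum.inr j))
  let V : Fin (m + n) → Subgroup E := fun b => (C (finSumFinEquiv.symm b)).comap φ
  have hV : ∀ b, (V b).map φ = C (finSumFinEquiv.symm b) := fun b =>
    Subgroup.map_comap_eq_self_of_surjective hφ _
  let u₁ : Fin m → E := fun i => v (Sum.inl i)
  let w₁ : Fin n → E := fun j => v (Sum.inr j)
  have h : ∀ i j g, (M i j).coeff g ≠ 0 → r i = s j ∧ u₁ i * g * (w₁ j)⁻¹ ∈ V (r i) := by
    intro i j g hg
    have h1 := hst i j (φ g) (hM i j g hg)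
    refine ⟨congrArg _ h1.1, ?_⟩
    change φ (u₁ i * g * (w₁ j)⁻¹) ∈ C (finSumFinEquiv.symm (finSumFinEquiv (ρ (Sum.inl i))))
    rw [Equiv.symm_apply_apply, map_mul, map_mul, map_inv]
    change φ (v (Sum.inl i)) * φ g * (φ (v (Sum.inr j)))⁻¹ ∈ _
    rw [hv, hv]
    exact h1.2
  let er : ∀ b, Fin (Fintype.card {i // r i = b}) ≃ {i // r i = b} := fun b =>
    (Fintype.equivFin _).symm
  let es : ∀ b, Fin (Fintype.card {j // s j = b}) ≃ {j // s j = b} := fun b =>
    (Fintype.equivFin _).symm
  refine ⟨m + n, V, fun b => Fintype.card {i // r i = b}, fun b => Fintype.card {j // s j = b},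
    fun b => (blkm M r s V u₁ w₁ b).submatrix (er b) (es b), fun b => ?_, ?_, ?_, ?_⟩
  · rw [hV]
    exact hC _
  · intro htf b
    rw [hV]
    obtain ⟨t, ht⟩ := hC (finSumFinEquiv.symm b)
    exact isCyclic_of_finiteIndex (S := C (finSumFinEquiv.symm b)) (fun g n hn h => Subtype.ext
      (htf g.1 n hn (by simpa using congrArg Subtype.val h))) (Subgroup.zpowers t)
      inferInstance ht
  · obtain ⟨ψ⟩ := coker_pattern M r s V u₁ w₁ h
    have h2 : ∀ b, Nonempty (((({j // s j = b} → MonoidAlgebra R E) ⧸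
        LinearMap.range (TH57.Thr.ind (blkm M r s V u₁ w₁ b)).vecMulLinear)) ≃ₗ[MonoidAlgebra R E]
        ((Fin (Fintype.card {j // s j = b}) → MonoidAlgebra R E) ⧸
        LinearMap.range (((blkm M r s V u₁ w₁ b).submatrix (er b) (es b)).map
          (MonoidAlgebra.mapDomainRingHom R (V b).subtype)).vecMulLinear)) := fun b =>
      coker_reindex (TH57.Thr.ind (blkm M r s V u₁ w₁ b)) (er b) (es b)
    exact ⟨(e.trans ψ).trans (LinearEquiv.piCongrRight fun b => (h2 b).some)⟩
  · intro hP b
    obtain ⟨Y, hY⟩ := regular_of_projective M P hP e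
    obtain ⟨Z, hZ⟩ := regular_blocks M r s V u₁ w₁ h Y hY b
    obtain ⟨ψ⟩ := coker_reindex (blkm M r s V u₁ w₁ b) (er b) (es b)
    haveI := projective_of_regular _ Z hZ
    exact Module.Projective.of_equiv ψ

end TH6.FB
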